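import Pool.Agent.H76.CutK

set_option autoImplicit false

namespace Pool.Agent.Results.MP_a5b85f_al.Q2False

/-- One integer `m` works for all `x`. -/
def UniformlySemiRational (H : Type) [Group H] : Prop :=
  ∃ m : ℤ, ∀ x y : H, Subgroup.zpowers y = Subgroup.zpowers x →
    IsConj y x ∨ IsConj y (x ^ m)

open Pool.Agent.H76 in
theorem result : ∃ (G : Type) (_ : Group G) (_ : Finite G),
    UniformlySemiRational G ∧ ∃ P : Sylow 3 G, ¬ UniformlySemiRational (P : Subgroup G) := by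
  obtain ⟨Q, hQ⟩ := CutK.P_p.exists_le_sylow
  have hx := hQ CutK.x0_mem
  have key : ¬ UniformlySemiRational (Q : Subgroup CutK.G) := by
    intro h
    obtain ⟨m, hm0⟩ := h
    have hm := hm0 ⟨_, hx⟩
    have h1 := hm (⟨_, hx⟩ ^ 7) (by
      apply le_antisymm
      · exact Subgroup.zpowers_le_of_mem (pow_mem (Subgroup.mem_zpowers _) 7)
      · refine Subgroup.zpowers_le_of_mem ?_
        have : (⟨_, hx⟩ : (Q : Subgroup CutK.G)) = (⟨_, hx⟩ ^ 7) ^ 31 :=
          Subtype.ext CutK.x0_pow.symm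
        conv_rhs => rw [this]
        exact pow_mem (Subgroup.mem_zpowers _) 31)
    have h2 := hm (⟨_, hx⟩⁻¹) Subgroup.zpowers_inv
    have n1 : ¬ IsConj ((⟨_, hx⟩ : (Q : Subgroup CutK.G)) ^ 7) ⟨_, hx⟩ := fun k => by
      obtain ⟨g, hg⟩ := isConj_iff.1 k
      rw [mul_inv_eq_iff_eq_mul] at hg
      exact (CutK.not_conj g (CutK.sylow_le Q hQ g.2)).1 (congrArg Subtype.val hg)
    have n2 : ¬ IsConj ((⟨_, hx⟩ : (Q : Subgroup CutK.G)) ^ 7) (⟨_, hx⟩⁻¹) := fun k => by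
      obtain ⟨g, hg⟩ := isConj_iff.1 k
      rw [mul_inv_eq_iff_eq_mul] at hg
      exact (CutK.not_conj g (CutK.sylow_le Q hQ g.2)).2 (congrArg Subtype.val hg)
    have n3 : ¬ IsConj ((⟨_, hx⟩ : (Q : Subgroup CutK.G))⁻¹) ⟨_, hx⟩ := fun k => by
      obtain ⟨g, hg⟩ := isConj_iff.1 k
      rw [mul_inv_eq_iff_eq_mul] at hg
      have h3 := congrArg (fun z : (Q : Subgroup CutK.G) => z.1.k.r) hg
      have h4 : ∀ r : CutK.Z, ¬ (r + -1 = 1 + r) := by decide
      exact h4 _ h3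
    exact n2 ((h1.resolve_left n1).trans (h2.resolve_left n3).symm)
  refine ⟨CutK.G, inferInstance, inferInstance, ⟨-1, fun x y hy => ?_⟩, Q, key⟩
  simpa using CutK.cut x y hy

end Pool.Agent.Results.MP_a5b85f_al.Q2False
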